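import Pool.Agent.Helper11.KS.Sheet
import Pool.Agent.Helper94.PU.Step

/-! Row HT of project KS (MP_665203_co): the tree of two tripod points with its four arms. -/

open MeasureTheory Metric Set Filter Topology Real
open scoped ENNReal NNReal

namespace H11ST
namespace KS
namespace H73
open NH

open PU (Ray ray_step tri_arm)

/-- the arm from `y` in the direction `e` ends after the length `c` -/
structure End (S : Set (E 2)) (y e : E 2) (c : ℝ) : Prop where
  pos : 0 < c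
  le : ‖y + c • e‖ ≤ 1
  ray : Ray S y e c
  mem : y + c • e ∈ S
  fin : ‖y + c • e‖ = 1 ∨ ‖y + c • e‖ < 1 ∧ ∃ u ε, Tri S (y + c • e) u ε ∧ ∃ j, u j = -e

theorem ray_mem {S : Set (E 2)} (hS : IsClosed S) {y e : E 2} {c : ℝ} (hc : 0 < c)
    (h : Ray S y e c) : y + c • e ∈ S := by
  have ht : Tendsto (fun s : ℝ => y + s • e) (𝓝[<] c) (𝓝 (y + c • e)) := by
    refine Tendsto.mono_left ?_ nhdsWithin_le_nhds
    exact Continuous.tendsto (by fun_prop) c
  refine hS.mem_of_tendsto ht ?_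
  filter_upwards [Ioo_mem_nhdsLT hc] with s hs
  obtain ⟨ε, h⟩ := h s hs.1 hs.2
  exact h.z_mem

/-- convexity of the norm on the ray -/
theorem norm_ray_le {y e : E 2} {s c : ℝ} (h0 : 0 ≤ s) (h1 : s ≤ c) (hc : 0 < c) :
    ‖y + s • e‖ ≤ (1 - s / c) * ‖y‖ + s / c * ‖y + c • e‖ := by
  have e1 : y + s • e = (1 - s / c) • y + (s / c) • (y + c • e) := by
    rw [smul_add, smul_smul, div_mul_cancel₀ _ hc.ne', ← add_assoc, ← add_smul]
    simp
  have h2 : 0 ≤ 1 - s / c := by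
    rw [sub_nonneg, div_le_one hc]
    exact h1
  have h3 : 0 ≤ s / c := div_nonneg h0 hc.le
  calc ‖y + s • e‖ = ‖(1 - s / c) • y + (s / c) • (y + c • e)‖ := by rw [← e1]
    _ ≤ ‖(1 - s / c) • y‖ + ‖(s / c) • (y + c • e)‖ := norm_add_le _ _
    _ = (1 - s / c) * ‖y‖ + s / c * ‖y + c • e‖ := by
      rw [norm_smul, norm_smul, Real.norm_of_nonneg h2, Real.norm_of_nonneg h3]

theorem norm_ray_lt {y e : E 2} {s c b : ℝ} (h0 : 0 ≤ s) (h1 : s < c) (hy : ‖y‖ < b)
    (hc : ‖y + c • e‖ ≤ b) : ‖y + s • e‖ < b := by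
  have hc0 : 0 < c := lt_of_le_of_lt h0 h1
  have h2 := norm_ray_le (y := y) (e := e) h0 h1.le hc0
  have h3 : 0 < 1 - s / c := by
    rw [sub_pos, div_lt_one hc0]
    exact h1
  have h4 : 0 ≤ s / c := div_nonneg h0 hc0.le
  nlinarith

theorem exit_exists {y e : E 2} (hy : ‖y‖ < 1) (he : ‖e‖ = 1) :
    ∃ c : ℝ, 0 < c ∧ ‖y + c • e‖ = 1 := by
  have hcont : ContinuousOn (fun s : ℝ => ‖y + s • e‖) (Icc 0 2) := by fun_prop
  have h2 : 1 ≤ ‖y + (2 : ℝ) • e‖ := by
    have h3 : ‖(2 : ℝ) • e‖ = 2 := by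
      rw [norm_smul, he]
      norm_num
    have h4 : ‖(2 : ℝ) • e‖ ≤ ‖y + (2 : ℝ) • e‖ + ‖y‖ := by
      have := norm_sub_le (y + (2 : ℝ) • e) y
      rwa [add_sub_cancel_left] at this
    linarith
  have h0 : ‖y + (0 : ℝ) • e‖ ≤ 1 := by
    rw [zero_smul, add_zero]
    exact hy.le
  obtain ⟨c, hc, hc1⟩ := intermediate_value_Icc (by norm_num) hcont ⟨h0, h2⟩
  refine ⟨c, lt_of_le_of_ne hc.1 ?_, hc1⟩
  rintro rfl
  have h5 : ‖y + (0 : ℝ) • e‖ = 1 := hc1
  rw [zero_smul, add_zero] at h5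
  linarith

theorem tri_ymem {S : Set (E 2)} {y : E 2} {u : Fin 3 → E 2} {ε : ℝ} (T : Tri S y u ε) : y ∈ S := by
  have := T.mem (i := 0) (s := 0) le_rfl T.pos
  simpa using this

theorem arm_end {A S : Set (E 2)} {r : ℝ} (h : Setup A S r) {y : E 2} {u : Fin 3 → E 2} {ε : ℝ}
    (T : Tri S y u ε) (hy : ‖y‖ < 1) (i : Fin 3) : ∃ c, End S y (u i) c := by
  obtain ⟨c, hc, hc1⟩ := exit_exists hy (T.norm i)
  have hreg : ∀ z ∈ S ∩ ball 0 1, (∃ u ε, Lin S z u ε) ∨ ∃ u ε, Tri S z u ε := fun z hz =>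
    h.reg z ⟨hz.1, ball_subset_ball h.r1.le hz.2⟩
  obtain ⟨ε₀, hε₀, hst⟩ := tri_arm T i
  by_cases hall : ∀ s, 0 < s → s < c → ∀ s', 0 < s' → s' ≤ s → ∃ ε, Lin S (y + s' • u i) (u i) ε
  · have hray : Ray S y (u i) c := fun s' h0 h1 => hall s' h0 h1 s' h0 le_rfl
    exact ⟨c, hc, hc1.le, hray, ray_mem h.L.hS hc hray, Or.inl hc1⟩
  · push Not at hall
    obtain ⟨s, hs0, hs1, s', h0, h1, hno⟩ := hall
    have hlt : ‖y + s • u i‖ < 1 := norm_ray_lt hs0.le hs1 hy hc1.le
    rcases ray_step h.L.hS hreg (T.norm i) hy hlt hs0 hε₀ hst with h2 | ⟨t, t0, t1, hR, u', ε', T', hu'⟩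
    · obtain ⟨ε', hL⟩ := h2 s' h0 h1
      exact absurd hL (hno ε')
    · have hlt' : ‖y + t • u i‖ < 1 := norm_ray_lt t0.le (lt_of_le_of_lt t1 hs1) hy hc1.le
      exact ⟨t, t0, hlt'.le, hR, tri_ymem T', Or.inr ⟨hlt', u', ε', T', 0, hu'⟩⟩

/-- the directions of a tripod are unique -/
theorem tri_dir {S : Set (E 2)} {y : E 2} {u u' : Fin 3 → E 2} {ε ε' : ℝ} (T : Tri S y u ε)
    (T' : Tri S y u' ε') (i : Fin 3) : ∃ j, u' j = u i := by
  set r := min ε ε' / 2 with hr
  have hr0 : 0 < r := by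
    have := lt_min T.pos T'.pos
    rw [hr]; linarith
  have hr1 : r < ε := by
    have := min_le_left ε ε'
    have := T.pos
    rw [hr]; linarith
  have hr2 : r < ε' := by
    have := min_le_right ε ε'
    have := T'.pos
    rw [hr]; linarith
  have h4 : y + r • u i ∈ S ∩ ball y ε' := by
    refine ⟨T.mem hr0.le hr1, ?_⟩
    rw [mem_ball, dist_eq_norm]
    simp only [add_sub_cancel_left, norm_smul, T.norm i, Real.norm_eq_abs, mul_one, abs_of_pos hr0]
    exact hr2
  rw [T'.eq] at h4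
  obtain ⟨j, t, ht0, _, ht⟩ := h4
  refine ⟨j, ?_⟩
  have h5 : r • u i = t • u' j := add_left_cancel ht
  have h6 : r = t := by
    have := congrArg norm h5
    rw [norm_smul, norm_smul, T.norm i, T'.norm j, Real.norm_eq_abs, Real.norm_eq_abs,
      abs_of_pos hr0, abs_of_nonneg ht0, mul_one, mul_one] at this
    exact this
  rw [← h6] at h5
  exact (smul_right_injective _ hr0.ne' h5).symm

theorem tri_inj {S : Set (E 2)} {y : E 2} {u : Fin 3 → E 2} {ε : ℝ} (T : Tri S y u ε) {i j : Fin 3}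
    (h : u i = u j) : i = j := by
  by_contra hne
  have h1 := T.ang i j hne
  rw [h, real_inner_self_eq_norm_sq, T.norm j] at h1
  norm_num at h1

theorem pos_smul_unit {e e' : E 2} {s t : ℝ} (he : ‖e‖ = 1) (he' : ‖e'‖ = 1) (hs : 0 < s)
    (ht : 0 < t) (h : s • e = t • e') : s = t ∧ e = e' := by
  have h6 : s = t := by
    have := congrArg norm h
    rw [norm_smul, norm_smul, he, he', Real.norm_eq_abs, Real.norm_eq_abs, abs_of_pos hs,
      abs_of_pos ht, mul_one, mul_one] at this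
    exact this
  refine ⟨h6, ?_⟩
  rw [← h6] at h
  exact smul_right_injective _ hs.ne' h

/-- going back along an arm -/
theorem end_back {S : Set (E 2)} {y w e : E 2} {u : Fin 3 → E 2} {ε c c' : ℝ} (T : Tri S y u ε)
    (hy : ‖y‖ < 1) (h : End S y e c) (hw : w = y + c • e) (h' : End S w (-e) c') :
    w + c' • (-e) = y := by
  have key : ∀ s : ℝ, w + s • (-e) = y + (c - s) • e := by
    intro s
    rw [hw, sub_smul, smul_neg]
    abel
  rcases lt_trichotomy c' c with hlt | heq | hgt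
  · exfalso
    obtain ⟨ε', hL⟩ := h.ray (c - c') (by linarith) (by linarith [h'.pos])
    have hn : ‖y + (c - c') • e‖ < 1 :=
      norm_ray_lt (by linarith) (by linarith [h'.pos]) hy h.le
    rcases h'.fin with h1 | ⟨-, u', ε'', T', -⟩
    · rw [key] at h1
      linarith
    · rw [key] at T'
      exact lin_not_tri hL T'
  · rw [key, heq, sub_self, zero_smul, add_zero]
  · exfalso
    obtain ⟨ε', hL⟩ := h'.ray c h.pos hgt
    rw [key, sub_self, zero_smul, add_zero] at hL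
    exact lin_not_tri hL T

/-- two ends of the arms of a tripod are farther from each other than from the tripod -/
theorem far {S : Set (E 2)} {y : E 2} {u : Fin 3 → E 2} {ε : ℝ} (T : Tri S y u ε) {i j : Fin 3}
    (hij : i ≠ j) {a b : ℝ} (ha : 0 < a) (hb : 0 < b) :
    dist y (y + b • u j) < dist (y + a • u i) (y + b • u j) := by
  have h1 : dist y (y + b • u j) ^ 2 = b ^ 2 := by
    rw [dist_comm, dist_eq_norm, add_sub_cancel_left, norm_smul, T.norm j, mul_one, Real.norm_eq_abs,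
      sq_abs]
  have h2 : dist (y + a • u i) (y + b • u j) ^ 2 = a ^ 2 + b ^ 2 + a * b := by
    rw [dist_eq_norm, add_sub_add_left_eq_sub, ← real_inner_self_eq_norm_sq, inner_sub_left,
      inner_sub_right, inner_sub_right, inner_smul_left, inner_smul_right, inner_smul_left,
      inner_smul_right, inner_smul_left, inner_smul_right, inner_smul_left, inner_smul_right,
      real_inner_self_eq_norm_sq, real_inner_self_eq_norm_sq, T.norm i, T.norm j, T.ang i j hij,
      T.ang j i hij.symm]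
    simp only [conj_trivial]
    ring
  have h3 : dist y (y + b • u j) ^ 2 < dist (y + a • u i) (y + b • u j) ^ 2 := by
    rw [h1, h2]
    nlinarith [mul_pos ha hb, pow_pos ha 2]
  exact lt_of_pow_lt_pow_left₀ 2 dist_nonneg h3

theorem cos120 : Real.cos (2 * π / 3) = -(1 / 2) := by
  rw [show 2 * π / 3 = π - π / 3 by ring, Real.cos_pi_sub, Real.cos_pi_div_three]

theorem sin120 : Real.sin (2 * π / 3) = √3 / 2 := by
  rw [show 2 * π / 3 = π - π / 3 by ring, Real.sin_pi_sub, Real.sin_pi_div_three]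

theorem dir120 {α : ℝ} {e : E 2} (he : ‖e‖ = 1) (h : inner ℝ (ev α) e = -(1 / 2 : ℝ)) :
    e = ev (α + 2 * π / 3) ∨ e = ev (α - 2 * π / 3) := by
  have h1 := PU.norm2 e
  rw [he] at h1
  rw [PU.inner2] at h
  simp only [ev, PiLp.toLp_apply, Matrix.cons_val_zero, Matrix.cons_val_one] at h
  have hsc := Real.sin_sq_add_cos_sq α
  set q : ℝ := -Real.sin α * e 0 + Real.cos α * e 1 with hq
  have e0 : e 0 = -(1 / 2) * Real.cos α - q * Real.sin α := by
    rw [hq]
    linear_combination (-(e 0)) * hsc + Real.cos α * h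
  have e1 : e 1 = -(1 / 2) * Real.sin α + q * Real.cos α := by
    rw [hq]
    linear_combination (-(e 1)) * hsc + Real.sin α * h
  have hq2 : (q - √3 / 2) * (q + √3 / 2) = 0 := by
    have h3 := PU.s3
    have : q ^ 2 = 3 / 4 := by
      have h4 : e 0 ^ 2 + e 1 ^ 2 = (1 / 4 + q ^ 2) * (Real.sin α ^ 2 + Real.cos α ^ 2) := by
        rw [e0, e1]
        ring
      rw [hsc, ← h1] at h4
      linarith
    nlinarith
  rcases mul_eq_zero.1 hq2 with h4 | h4
  · left
    have hq' : q = √3 / 2 := by linarith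
    refine PU.ext2 ?_ ?_
    · rw [e0, hq']
      simp only [ev, PiLp.toLp_apply, Matrix.cons_val_zero]
      rw [Real.cos_add, cos120, sin120]
      ring
    · rw [e1, hq']
      show _ = Real.sin (α + 2 * π / 3)
      rw [Real.sin_add, cos120, sin120]
      ring
  · right
    have hq' : q = -(√3 / 2) := by linarith
    refine PU.ext2 ?_ ?_
    · rw [e0, hq']
      simp only [ev, PiLp.toLp_apply, Matrix.cons_val_zero]
      rw [Real.cos_sub, cos120, sin120]
      ring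
    · rw [e1, hq']
      show _ = Real.sin (α - 2 * π / 3)
      rw [Real.sin_sub, cos120, sin120]
      ring

/-- the other two arms of a tripod -/
theorem tri_two {S : Set (E 2)} {y : E 2} {u : Fin 3 → E 2} {ε : ℝ} (T : Tri S y u ε) {i : Fin 3}
    {α : ℝ} (hi : u i = ev α) : ∃ j k, i ≠ j ∧ i ≠ k ∧ j ≠ k ∧ u j = ev (α + 2 * π / 3) ∧
      u k = ev (α - 2 * π / 3) := by
  obtain ⟨j, k, hij, hik, hjk⟩ : ∃ j k : Fin 3, i ≠ j ∧ i ≠ k ∧ j ≠ k := by
    have : ∀ i : Fin 3, ∃ j k : Fin 3, i ≠ j ∧ i ≠ k ∧ j ≠ k := by decide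
    exact this i
  have h1 := T.ang i j hij
  have h2 := T.ang i k hik
  rw [hi] at h1 h2
  have hne : u j ≠ u k := fun h => hjk (tri_inj T h)
  rcases dir120 (T.norm j) h1 with a | a <;> rcases dir120 (T.norm k) h2 with b | b
  · exact absurd (a.trans b.symm) hne
  · exact ⟨j, k, hij, hik, hjk, a, b⟩
  · exact ⟨k, j, hik, hij, hjk.symm, b, a⟩
  · exact absurd (a.trans b.symm) hne

theorem unit_ev {e : E 2} (he : ‖e‖ = 1) : ∃ α, e = ev α := by
  obtain ⟨θ, -, h⟩ := exists_angle (x := 0) (z := e) (ρ := 1) one_pos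
    (by rw [mem_sphere_zero_iff_norm]; exact he)
  exact ⟨θ, by rw [h, zero_add, one_smul]⟩

theorem ev_add_pi (α : ℝ) : ev (α + π) = -ev α := by
  refine PU.ext2 ?_ ?_ <;> simp [ev, Real.cos_add_pi, Real.sin_add_pi]

theorem ev_sub_pi (α : ℝ) : ev (α - π) = -ev α := by
  refine PU.ext2 ?_ ?_ <;> simp [ev, Real.cos_sub_pi, Real.sin_sub_pi]

theorem ev_two_pi (α : ℝ) : ev (α + 2 * π) = ev α := by
  refine PU.ext2 ?_ ?_ <;> simp [ev, Real.cos_add_two_pi, Real.sin_add_two_pi]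

/-- the segment of an arm is in `S` -/
theorem End.seg {S : Set (E 2)} {y e : E 2} {c : ℝ} (h : End S y e c) (hy : y ∈ S) :
    segment ℝ y (y + c • e) ⊆ S := by
  rw [segment_eq_image']
  rintro z ⟨θ, ⟨h0, h1⟩, rfl⟩
  simp only [add_sub_cancel_left, smul_smul]
  rcases h0.eq_or_lt with h2 | h2
  · rw [← h2, zero_mul, zero_smul, add_zero]
    exact hy
  · rcases h1.eq_or_lt with h3 | h3
    · rw [h3, one_mul]
      exact h.mem
    · obtain ⟨ε, hL⟩ := h.ray (θ * c) (mul_pos h2 h.pos) (by nlinarith [h.pos])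
      exact hL.z_mem

theorem mem_seg {y e : E 2} {s c : ℝ} (h0 : 0 ≤ s) (h1 : s ≤ c) (hc : 0 < c) :
    y + s • e ∈ segment ℝ y (y + c • e) := by
  rw [segment_eq_image']
  refine ⟨s / c, ⟨div_nonneg h0 hc.le, (div_le_one hc).2 h1⟩, ?_⟩
  simp only [add_sub_cancel_left, smul_smul]
  rw [div_mul_cancel₀ _ hc.ne']

theorem gdist' {z u : E 2} (hu : ‖u‖ = 1) (s : ℝ) : dist (z + s • u) z = |s| := by
  rw [dist_eq_norm]
  simp [norm_smul, hu]

/-- inner points of an arm -/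
theorem End.loc {S : Set (E 2)} {y e z : E 2} {c : ℝ} (h : End S y e c)
    (hz : z ∈ segment ℝ y (y + c • e)) (h1 : z ≠ y) (h2 : z ≠ y + c • e) :
    ∃ ε > 0, S ∩ ball z ε ⊆ segment ℝ y (y + c • e) := by
  rw [segment_eq_image'] at hz
  obtain ⟨θ, ⟨t0, t1⟩, rfl⟩ := hz
  simp only [add_sub_cancel_left, smul_smul] at h1 h2 ⊢
  have t0' : 0 < θ := by
    refine lt_of_le_of_ne t0 ?_
    rintro rfl
    exact h1 (by rw [zero_mul, zero_smul, add_zero])
  have t1' : θ < 1 := by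
    refine lt_of_le_of_ne t1 ?_
    rintro rfl
    exact h2 (by rw [one_mul])
  have hc := h.pos
  have p0 : 0 < θ * c := mul_pos t0' hc
  have p1 : θ * c < c := by nlinarith
  obtain ⟨ε, hL⟩ := h.ray (θ * c) p0 p1
  refine ⟨min ε (min (θ * c) (c - θ * c)), lt_min hL.pos (lt_min p0 (by linarith)), ?_⟩
  rintro v ⟨hv, hvb⟩
  have h3 : v ∈ S ∩ ball (y + (θ * c) • e) ε := ⟨hv, ball_subset_ball (min_le_left _ _) hvb⟩
  rw [hL.eq] at h3
  obtain ⟨s, -, rfl⟩ := h3
  rw [mem_ball, gdist' hL.unit, lt_min_iff, lt_min_iff] at hvb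
  obtain ⟨-, k1, k2⟩ := hvb
  have k3 := abs_lt.1 k1
  have k4 := abs_lt.1 k2
  rw [add_assoc, ← add_smul]
  exact mem_seg (by linarith [k3.1]) (by linarith [k4.2]) hc

/-- neighbourhood of a tripod -/
theorem tri_loc {S : Set (E 2)} {y : E 2} {u : Fin 3 → E 2} {ε : ℝ} (T : Tri S y u ε)
    (c : Fin 3 → ℝ) (hc : ∀ i, 0 < c i) :
    ∃ δ > 0, ∀ v ∈ S ∩ ball y δ, ∃ i, v ∈ segment ℝ y (y + c i • u i) := by
  refine ⟨min ε (min (c 0) (min (c 1) (c 2))),
    lt_min T.pos (lt_min (hc 0) (lt_min (hc 1) (hc 2))), ?_⟩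
  rintro v ⟨hv, hvb⟩
  have h3 : v ∈ S ∩ ball y ε := ⟨hv, ball_subset_ball (min_le_left _ _) hvb⟩
  rw [T.eq] at h3
  obtain ⟨i, s, s0, -, rfl⟩ := h3
  refine ⟨i, mem_seg s0 ?_ (hc i)⟩
  rw [mem_ball, dist_eq_norm, add_sub_cancel_left, norm_smul, T.norm i, mul_one,
    Real.norm_of_nonneg s0, lt_min_iff, lt_min_iff, lt_min_iff] at hvb
  obtain ⟨-, k0, k1, k2⟩ := hvb
  fin_cases i
  · exact k0.le
  · exact k1.le
  · exact k2.le

theorem three_cases : ∀ i i0 i1 i2 : Fin 3, i0 ≠ i1 → i0 ≠ i2 → i1 ≠ i2 →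
    i = i0 ∨ i = i1 ∨ i = i2 := by decide

/-- an arm which ends outside of the ball of radius `ρ` is a ray inside of it -/
theorem End.inner_ray {S : Set (E 2)} {y e : E 2} {c ρ s : ℝ} (h : End S y e c) (hy : ‖y‖ < ρ)
    (hc : ρ < ‖y + c • e‖) (hs : 0 < s) (hn : ‖y + s • e‖ ≤ ρ) :
    ∃ δ, Lin S (y + s • e) e δ := by
  refine h.ray s hs ?_
  by_contra hcs
  push Not at hcs
  rcases hcs.eq_or_lt with h1 | h1
  · rw [← h1] at hn
    linarith
  · have h2 : ‖y + c • e‖ < ρ := norm_ray_lt h.pos.le h1 hy hn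
    linarith

/-- the exit of an arm -/
theorem End.exit {S : Set (E 2)} {y e : E 2} {c : ℝ} (h : End S y e c) (he : ‖e‖ = 1) :
    ∃ rr : ℝ, 0 ≤ rr ∧ ‖(y + c • e) + rr • e‖ = 1 := by
  rcases h.le.eq_or_lt with h1 | h1
  · exact ⟨0, le_rfl, by rw [zero_smul, add_zero]; exact h1⟩
  · obtain ⟨c', hc', hc1⟩ := exit_exists h1 he
    exact ⟨c', hc'.le, hc1⟩

theorem core {S : Set (E 2)} {t : ℝ} {b b' : E 2} (hb : ‖b‖ < t) (hb' : ‖b'‖ < t) (ht1 : t ≤ 1)
    {u u' : Fin 3 → E 2} {ε ε' : ℝ} (T : Tri S b u ε) (T' : Tri S b' u' ε')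
    {c c' : Fin 3 → ℝ} (hE : ∀ i, End S b (u i) (c i)) (hE' : ∀ i, End S b' (u' i) (c' i))
    (out : ∀ i, b + c i • u i = b' ∨ (2 - t) / 3 ≤ ‖b + c i • u i‖)
    (out' : ∀ i, b' + c' i • u' i = b ∨ (2 - t) / 3 ≤ ‖b' + c' i • u' i‖)
    {i0 : Fin 3} (hi : b + c i0 • u i0 = b') :
    ∃ φ s a v c rr, Geo4 t φ s a v c rr ∧ InS4 S φ s v ∧ (∀ k, ∃ u ε, Tri S (s k) u ε) := by
  obtain ⟨φ, d0⟩ := unit_ev (T.norm i0)
  obtain ⟨i1, i2, i01, i02, i12, d1, d2⟩ := tri_two T d0
  -- the arm of `b'` which goes back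
  obtain ⟨j0, dj0, ej0⟩ : ∃ j0, u' j0 = ev (φ - π) ∧ b' + c' j0 • u' j0 = b := by
    rcases (hE i0).fin with h1 | ⟨-, u'', ε'', T'', j, hj⟩
    · rw [hi] at h1
      linarith
    · rw [hi] at T''
      obtain ⟨j', hj'⟩ := tri_dir T'' T' j
      have hd : u' j' = -u i0 := hj'.trans hj
      refine ⟨j', ?_, ?_⟩
      · rw [hd, d0, ev_sub_pi]
      · have hE2 := hE' j'
        rw [hd] at hE2 ⊢
        exact end_back T (by linarith) (hE i0) hi.symm hE2
  obtain ⟨j1, j2, j01, j02, j12, dj1, dj2⟩ := tri_two T' dj0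
  -- directions
  have d2' : u i2 = ev (φ + 4 * π / 3) := by
    rw [d2, ← ev_two_pi]
    congr 1
    ring
  have dj1' : u' j1 = ev (φ + 5 * π / 3) := by
    rw [dj1, ← ev_two_pi]
    congr 1
    ring
  have dj2' : u' j2 = ev (φ + π / 3) := by
    rw [dj2, ← ev_two_pi]
    congr 1
    ring
  -- ends
  have n : ∀ i, i0 ≠ i → (2 - t) / 3 ≤ ‖b + c i • u i‖ := by
    intro i hne
    refine (out i).resolve_left fun h => hne ?_
    have h2 := pos_smul_unit (T.norm i0) (T.norm i) (hE i0).pos (hE i).pos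
      (add_left_cancel (hi.trans h.symm))
    exact tri_inj T h2.2
  have n' : ∀ i, j0 ≠ i → (2 - t) / 3 ≤ ‖b' + c' i • u' i‖ := by
    intro i hne
    refine (out' i).resolve_left fun h => hne ?_
    have h2 := pos_smul_unit (T'.norm j0) (T'.norm i) (hE' j0).pos (hE' i).pos
      (add_left_cancel (ej0.trans h.symm))
    exact tri_inj T' h2.2
  let s : Fin 2 → E 2 := ![b, b']
  let v : Fin 4 → E 2 := ![b' + c' j2 • u' j2, b + c i1 • u i1, b + c i2 • u i2,
    b' + c' j1 • u' j1]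
  let cc : Fin 4 → ℝ := ![c' j2, c i1, c i2, c' j1]
  have hA : ∀ i, End S (s (ft4 i)) (ev (φ + dl4 i)) (cc i) ∧
      v i = s (ft4 i) + cc i • ev (φ + dl4 i) ∧ (2 - t) / 3 ≤ ‖v i‖ := by
    intro i
    fin_cases i
    · have e : ev (φ + dl4 0) = u' j2 := by
        rw [dj2']
        rfl
      refine ⟨?_, ?_, n' j2 j02⟩
      · show End S b' (ev (φ + dl4 0)) (c' j2)
        rw [e]
        exact hE' j2
      · show b' + c' j2 • u' j2 = b' + c' j2 • ev (φ + dl4 0)
        rw [e]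
    · have e : ev (φ + dl4 1) = u i1 := by
        rw [d1]
        rfl
      refine ⟨?_, ?_, n i1 i01⟩
      · show End S b (ev (φ + dl4 1)) (c i1)
        rw [e]
        exact hE i1
      · show b + c i1 • u i1 = b + c i1 • ev (φ + dl4 1)
        rw [e]
    · have e : ev (φ + dl4 2) = u i2 := by
        rw [d2']
        rfl
      refine ⟨?_, ?_, n i2 i02⟩
      · show End S b (ev (φ + dl4 2)) (c i2)
        rw [e]
        exact hE i2
      · show b + c i2 • u i2 = b + c i2 • ev (φ + dl4 2)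
        rw [e]
    · have e : ev (φ + dl4 3) = u' j1 := by
        rw [dj1']
        rfl
      refine ⟨?_, ?_, n' j1 j01⟩
      · show End S b' (ev (φ + dl4 3)) (c' j1)
        rw [e]
        exact hE' j1
      · show b' + c' j1 • u' j1 = b' + c' j1 • ev (φ + dl4 3)
        rw [e]
  have hx : ∀ i, ∃ rr : ℝ, 0 ≤ rr ∧ ‖v i + rr • ev (φ + dl4 i)‖ = 1 := by
    intro i
    rw [(hA i).2.1]
    exact (hA i).1.exit (norm_ev _)
  choose rr hr0 hrv using hx
  have hG : Geo4 t φ s (c i0) v cc rr :=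
    { apos := (hE i0).pos
      s1 := by
        show b' = b + c i0 • ev φ
        rw [← d0]
        exact hi.symm
      sn := by
        intro k
        fin_cases k
        · exact hb
        · exact hb'
      cpos := fun i => (hA i).1.pos
      vd := fun i => (hA i).2.1
      vlow := fun i => (hA i).2.2
      vup := by
        intro i
        rw [(hA i).2.1]
        exact (hA i).1.le
      r0 := hr0
      rv := hrv }
  have hTri : ∀ k, ∃ u ε, Tri S (s k) u ε := by
    intro k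
    fin_cases k
    · exact ⟨u, ε, T⟩
    · exact ⟨u', ε', T'⟩
  -- segments at the two points
  have hsb : ∀ i, segment ℝ b (b + c i • u i) ⊆ tree4 s v := by
    intro i
    rcases three_cases i i0 i1 i2 i01 i02 i12 with rfl | rfl | rfl
    · rw [hi]
      intro z hz
      exact Or.inl hz
    · intro z hz
      exact Or.inr (mem_iUnion.2 ⟨1, hz⟩)
    · intro z hz
      exact Or.inr (mem_iUnion.2 ⟨2, hz⟩)
  have hsb' : ∀ i, segment ℝ b' (b' + c' i • u' i) ⊆ tree4 s v := by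
    intro i
    rcases three_cases i j0 j1 j2 j01 j02 j12 with rfl | rfl | rfl
    · rw [ej0, segment_symm]
      intro z hz
      exact Or.inl hz
    · intro z hz
      exact Or.inr (mem_iUnion.2 ⟨3, hz⟩)
    · intro z hz
      exact Or.inr (mem_iUnion.2 ⟨0, hz⟩)
  have hsS : ∀ k, s k ∈ S ∧ ∃ δ > 0, S ∩ ball (s k) δ ⊆ tree4 s v := by
    intro k
    fin_cases k
    · refine ⟨tri_ymem T, ?_⟩
      obtain ⟨δ, hδ, h⟩ := tri_loc T c (fun i => (hE i).pos)
      refine ⟨δ, hδ, fun z hz => ?_⟩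
      obtain ⟨i, hi⟩ := h z hz
      exact hsb i hi
    · refine ⟨tri_ymem T', ?_⟩
      obtain ⟨δ, hδ, h⟩ := tri_loc T' c' (fun i => (hE' i).pos)
      refine ⟨δ, hδ, fun z hz => ?_⟩
      obtain ⟨i, hi⟩ := h z hz
      exact hsb' i hi
  have g1 : b' = b + c i0 • u i0 := hi.symm
  refine ⟨φ, s, c i0, v, cc, rr, hG, ⟨?_, ?_, ?_⟩, hTri⟩
  · rintro z (hz | hz)
    · have hz' : z ∈ segment ℝ b (b + c i0 • u i0) := by
        rw [← g1]
        exact hz
      exact (hE i0).seg (tri_ymem T) hz'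
    · obtain ⟨i, hi⟩ := mem_iUnion.1 hz
      rw [(hA i).2.1] at hi
      exact (hA i).1.seg (hsS (ft4 i)).1 hi
  · rintro z hz hzv
    by_cases hk : ∃ k, z = s k
    · obtain ⟨k, rfl⟩ := hk
      exact (hsS k).2
    push Not at hk
    rcases hz with hz | hz
    · have hz' : z ∈ segment ℝ b (b + c i0 • u i0) := by
        rw [← g1]
        exact hz
      obtain ⟨δ, hδ, h⟩ := (hE i0).loc hz' (hk 0) (by rw [← g1]; exact hk 1)
      refine ⟨δ, hδ, h.trans ?_⟩
      rw [← g1]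
      intro w hw
      exact Or.inl hw
    · obtain ⟨i, hi⟩ := mem_iUnion.1 hz
      have hv := (hA i).2.1
      rw [hv] at hi
      obtain ⟨δ, hδ, h⟩ := (hA i).1.loc hi (hk (ft4 i)) (by rw [← hv]; exact hzv i)
      refine ⟨δ, hδ, h.trans ?_⟩
      rw [← hv]
      intro w hw
      exact Or.inr (mem_iUnion.2 ⟨i, hw⟩)
  · intro i
    rw [(hA i).2.1]
    exact (hA i).1.fin

end H73

open NH

/-- row HT -/
theorem st_HT (hFAR : KS_FAR) (hNADJ : KS_NADJ) : KS_HT := by
  intro hN3 A S r h t ht0 ht1 b b' hne hb hb' hT hT'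
  have hfar := hFAR hN3 A S r h t ht0 ht1 b b' hne hb hb' hT hT'
  obtain ⟨u, ε, T⟩ := hT
  obtain ⟨u', ε', T'⟩ := hT'
  have hex : ∀ i, ∃ c, H73.End S b (u i) c := fun i => H73.arm_end h T (by linarith) i
  have hex' : ∀ i, ∃ c, H73.End S b' (u' i) c := fun i => H73.arm_end h T' (by linarith) i
  choose c hE using hex
  choose c' hE' using hex'
  have key : ∀ (y : E 2) (e : E 2) (c : ℝ), (y = b ∨ y = b') → ‖e‖ = 1 → H73.End S y e c →
      y + c • e = b ∨ y + c • e = b' ∨ (2 - t) / 3 ≤ ‖y + c • e‖ := by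
    intro y e c _ _ hc
    by_cases h1 : y + c • e = b
    · exact Or.inl h1
    by_cases h2 : y + c • e = b'
    · exact Or.inr (Or.inl h2)
    right; right
    rcases hc.fin with h3 | ⟨h3, u'', ε'', T'', -⟩
    · rw [h3]
      linarith
    · exact hfar _ h1 h2 h3.le ⟨u'', ε'', T''⟩
  have nself : ∀ (y e : E 2) (c : ℝ), ‖e‖ = 1 → 0 < c → y + c • e ≠ y := by
    intro y e c he hc h1
    have h2 : c • e = 0 := by
      have : y + c • e = y + 0 := by rw [h1, add_zero]
      exact add_left_cancel this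
    rcases smul_eq_zero.1 h2 with h3 | h3
    · exact hc.ne' h3
    · rw [h3, norm_zero] at he
      exact zero_ne_one he
  have out : ∀ i, b + c i • u i = b' ∨ (2 - t) / 3 ≤ ‖b + c i • u i‖ := by
    intro i
    rcases key b (u i) (c i) (Or.inl rfl) (T.norm i) (hE i) with h1 | h1
    · exact absurd h1 (nself _ _ _ (T.norm i) (hE i).pos)
    · exact h1
  have out' : ∀ i, b' + c' i • u' i = b ∨ (2 - t) / 3 ≤ ‖b' + c' i • u' i‖ := by
    intro i
    rcases key b' (u' i) (c' i) (Or.inr rfl) (T'.norm i) (hE' i) with h1 | h1 | h1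
    · exact Or.inl h1
    · exact absurd h1 (nself _ _ _ (T'.norm i) (hE' i).pos)
    · exact Or.inr h1
  by_cases hi : ∃ i0, b + c i0 • u i0 = b'
  · obtain ⟨i0, hi⟩ := hi
    exact H73.core hb hb' (by linarith) T T' hE hE' out out' hi
  · push Not at hi
    by_cases hj : ∃ j0, b' + c' j0 • u' j0 = b
    · obtain ⟨j0, hj⟩ := hj
      exact H73.core hb' hb (by linarith) T' T hE' hE out' out hj
    · push Not at hj
      exfalso
      refine hNADJ A S r h b b' hne (by linarith) (by linarith) u u' ε ε' T T' ?_ ?_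
      · intro i s hs hn
        refine (hE i).inner_ray (ρ := 49 / 100) (by linarith) ?_ hs hn
        have := (out i).resolve_left (hi i)
        linarith
      · intro i s hs hn
        refine (hE' i).inner_ray (ρ := 49 / 100) (by linarith) ?_ hs hn
        have := (out' i).resolve_left (hj i)
        linarith

end KS
end H11ST
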